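import Mathlib

/-!
# Non-surjective cellular automata with short but rare orphans (MP_642fbc_lc, Q1: no)

For every `J ≥ 2` we build a range-2 cellular automaton with `4 ^ J` states whose shortest orphan has
length `J` and for which at most half of the words of length `l` are orphans for all
`l ≤ 2 ^ (J ^ 2 - 1)`.

A cell carries a visible control letter `c < 2 ^ J` and a vector over the field with two elements.
For a fixed control word the automaton is a linear system; the system has full rank unless the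
control word contains the factor `0 1 … (J - 1)`.
-/

namespace Pool.Agent.Results.MP_642fbc_lc.RareOrphans

/-! ### Definitions of the problem -/

/-- The word `u` of length `l` has no preimage of length `l + 1` under the range-2 local rule `f`. -/
def Orphan {S : Type} (f : S → S → S) {l : ℕ} (u : Fin l → S) : Prop :=
  ¬ ∃ v : Fin (l + 1) → S, ∀ i : Fin l, f (v i.castSucc) (v i.succ) = u i

/-- The length of a shortest orphan. -/
noncomputable def shortest {S : Type} (f : S → S → S) : ℕ :=
  sInf {l | ∃ u : Fin l → S, Orphan f u}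

/-- The proportion of orphans among the words of length `l`. -/
noncomputable def rho {S : Type} [Fintype S] (f : S → S → S) (l : ℕ) : ℝ :=
  (Nat.card {u : Fin l → S // Orphan f u} : ℝ) / (Fintype.card S : ℝ) ^ l

/-! ### The automata -/

/-- The vectors; the last coordinate is the one of the sink. -/
abbrev Vec (k : ℕ) := Fin (k + 1) → ZMod 2

abbrev Cell (k M : ℕ) := Fin M × Vec k

variable {k M : ℕ}

/-- The linear map attached to a letter `c ≠ 0`. -/
def tgt (c : ℕ) (x : Vec k) (i : Fin (k + 1)) : ZMod 2 :=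
  if c = i + 1 ∧ (i : ℕ) < k then
    (if h : (i : ℕ) + 1 < k then x ⟨i + 1, by omega⟩ else 0)
  else x (Fin.last k)

/-- The second component of the local rule. -/
def step (c : ℕ) (x y : Vec k) : Vec k := fun i =>
  if c = 0 then (if i = Fin.last k then y 0 else x i - x (Fin.last k))
  else x i - tgt c y i

def rule (a b : Cell k M) : Cell k M := (a.1, step a.1 a.2 b.2)

theorem tgt_add (c : ℕ) (x y : Vec k) (t : ZMod 2) (i : Fin (k + 1)) :
    tgt c (fun j => x j + t * y j) i = tgt c x i + t * tgt c y i := by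
  unfold tgt
  split_ifs <;> simp

/-- The direction of the free parameter. -/
def dv : ℕ → (ℕ → ℕ) → Vec k
  | 0, _ => fun _ => 1
  | l + 1, c => fun i => if c 0 = 0 then 1 else tgt (c 0) (dv l fun j => c (j + 1)) i

theorem dv_last (l : ℕ) (c : ℕ → ℕ) : dv (k := k) l c (Fin.last k) = 1 := by
  induction l generalizing c with
  | zero => rfl
  | succ l ih =>
    simp only [dv]
    split_ifs with h
    · rfl
    · unfold tgt
      rw [if_neg (by simp)]
      exact ih _

theorem dv_ne (l : ℕ) (c : ℕ → ℕ) (i : Fin (k + 1)) (h : dv l c i ≠ 1) :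
    (i : ℕ) < k ∧ k - i ≤ l ∧ ∀ j < k - i, c j = i + 1 + j := by
  induction l generalizing c i with
  | zero => exact absurd rfl h
  | succ l ih =>
    simp only [dv] at h
    split_ifs at h with h0
    · exact absurd rfl h
    · unfold tgt at h
      split_ifs at h with h1 h2
      · obtain ⟨h3, h4, h5⟩ := ih _ _ h
        simp only at h3 h4 h5
        refine ⟨h1.2, by omega, fun j hj => ?_⟩
        rcases j with _ | j
        · simpa using h1.1
        · rw [h5 j (by omega)]; ring
      · refine ⟨h1.2, by omega, fun j hj => ?_⟩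
        have : j = 0 := by omega
        subst this
        simpa using h1.1
      · exact absurd (dv_last l _) h

/-- Words whose control word does not contain `0 1 … k` have preimages. -/
theorem solvable (hk : 0 < k) (l : ℕ) (c : ℕ → ℕ) (o : ℕ → Vec k)
    (h : ∀ p, p + k + 1 ≤ l → ∃ j ≤ k, c (p + j) ≠ j) :
    ∃ a : Vec k, ∀ t : ZMod 2, ∃ x : ℕ → Vec k, x 0 = (fun i => a i + t * dv l c i) ∧
      ∀ i < l, step (c i) (x i) (x (i + 1)) = o i := by
  induction l generalizing c o with
  | zero =>
    exact ⟨fun _ => 0, fun t => ⟨fun _ i => 0 + t * dv 0 c i, rfl, fun i hi => absurd hi (by omega)⟩⟩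
  | succ l ih =>
    obtain ⟨a', ha'⟩ := ih (fun j => c (j + 1)) (fun j => o (j + 1)) (by
      intro p hp
      obtain ⟨j, hj, hne⟩ := h (p + 1) (by omega)
      exact ⟨j, hj, by rwa [show p + j + 1 = p + 1 + j by ring]⟩)
    have hlast : (0 : Fin (k + 1)) ≠ Fin.last k := by
      intro h0
      have := congrArg Fin.val h0
      simp at this
      omega
    by_cases hc : c 0 = 0
    · refine ⟨fun i => if i = Fin.last k then 0 else o 0 i, fun t => ?_⟩
      have hd : dv (k := k) l (fun j => c (j + 1)) 0 = 1 := by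
        by_contra hne
        obtain ⟨-, h1, h2⟩ := dv_ne l _ _ hne
        simp only [Fin.val_zero, Nat.sub_zero, zero_add] at h1 h2
        obtain ⟨j, hj, hne'⟩ := h 0 (by omega)
        rcases j with _ | j
        · exact hne' (by simpa using hc)
        · refine hne' ?_
          have := h2 j (by omega)
          rw [zero_add, this]; ring
      obtain ⟨x', hx0, hx⟩ := ha' (o 0 (Fin.last k) - a' 0)
      have hstep : step (c 0) (fun i => (if i = Fin.last k then 0 else o 0 i) + t * dv (l + 1) c i)
          (x' 0) = o 0 := by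
        funext j
        simp only [step, hc, if_true]
        rw [hx0]
        simp only [hd, mul_one, dv, hc, if_true]
        by_cases hj : j = Fin.last k
        · rw [if_pos hj, hj]; ring
        · rw [if_neg hj, if_neg hj]; ring
      refine ⟨fun n => Nat.casesOn n
        (fun i => (if i = Fin.last k then 0 else o 0 i) + t * dv (l + 1) c i) x', rfl, ?_⟩
      intro i hi
      rcases i with _ | i
      · exact hstep
      · exact hx i (by omega)
    · refine ⟨fun i => o 0 i + tgt (c 0) a' i, fun t => ?_⟩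
      obtain ⟨x', hx0, hx⟩ := ha' t
      have hstep : step (c 0) (fun i => (o 0 i + tgt (c 0) a' i) + t * dv (l + 1) c i)
          (x' 0) = o 0 := by
        funext j
        simp only [step, hc, if_false]
        rw [hx0, tgt_add]
        simp only [dv, hc, if_false]
        ring
      refine ⟨fun n => Nat.casesOn n
        (fun i => (o 0 i + tgt (c 0) a' i) + t * dv (l + 1) c i) x', rfl, ?_⟩
      intro i hi
      rcases i with _ | i
      · exact hstep
      · exact hx i (by omega)

theorem not_orphan (hk : 0 < k) (hM : 0 < M) {l : ℕ} (u : Fin l → Cell k M)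
    (h : ∀ p, p + k + 1 ≤ l → ∃ j ≤ k, ∀ hj : p + j < l, ((u ⟨p + j, hj⟩).1 : ℕ) ≠ j) :
    ¬ Orphan rule u := by
  unfold Orphan
  rw [not_not]
  let c : ℕ → ℕ := fun i => if h : i < l then ((u ⟨i, h⟩).1 : ℕ) else 0
  let o : ℕ → Vec k := fun i => if h : i < l then (u ⟨i, h⟩).2 else 0
  obtain ⟨a, ha⟩ := solvable hk l c o (by
    intro p hp
    obtain ⟨j, hj, hne⟩ := h p hp
    refine ⟨j, hj, ?_⟩
    have hlt : p + j < l := by omega
    simp only [c, dif_pos hlt]
    exact hne hlt)
  obtain ⟨x, -, hx⟩ := ha 0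
  refine ⟨fun i => (if h : (i : ℕ) < l then (u ⟨i, h⟩).1 else ⟨0, hM⟩, x i), fun i => ?_⟩
  have hi := i.isLt
  have h1 := hx i hi
  simp only [c, o, dif_pos hi] at h1
  unfold rule
  simp only [Fin.val_castSucc, Fin.val_succ, dif_pos hi, Fin.eta]
  rw [h1]

/-- An orphan of length `k + 1`. -/
theorem exists_orphan (hk : 0 < k) (hM : k < M) : ∃ u : Fin (k + 1) → Cell k M, Orphan rule u := by
  refine ⟨fun j => (⟨j, by omega⟩, fun i => if (j : ℕ) = 0 ∧ i = Fin.last k then 1 else 0), ?_⟩
  rintro ⟨v, hv⟩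
  have hv1 : ∀ j : Fin (k + 1), ((v j.castSucc).1 : ℕ) = j := fun j => by
    have := congrArg (fun s : Cell k M => (s.1 : ℕ)) (hv j)
    simpa [rule] using this
  have hv2 : ∀ (j : Fin (k + 1)) (i : Fin (k + 1)),
      step j (v j.castSucc).2 (v j.succ).2 i = if (j : ℕ) = 0 ∧ i = Fin.last k then 1 else 0 := by
    intro j i
    have := congrArg (fun s : Cell k M => s.2 i) (hv j)
    simp only [rule] at this
    rw [hv1 j] at this
    exact this
  have key : ∀ d : ℕ, ∀ hd : d < k,
      (v ⟨k - d, by omega⟩).2 ⟨k - d - 1, by omega⟩ = 0 := by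
    intro d
    induction d with
    | zero =>
      intro hd
      have h1 := hv2 ⟨k, by omega⟩ ⟨k - 1, by omega⟩
      simp only [step, tgt] at h1
      rw [if_neg (by omega), if_pos ⟨by omega, by omega⟩, dif_neg (by omega),
        if_neg (by rintro ⟨h, -⟩; omega)] at h1
      simpa using h1
    | succ d ih =>
      intro hd
      have h1 := hv2 ⟨k - (d + 1), by omega⟩ ⟨k - (d + 1) - 1, by omega⟩
      simp only [step, tgt] at h1
      rw [if_neg (by omega), if_pos ⟨by omega, by omega⟩, dif_pos (by omega),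
        if_neg (by rintro ⟨h, -⟩; omega)] at h1
      have h2 := ih (by omega)
      have e1 : (⟨k - (d + 1), by omega⟩ : Fin (k + 1)).succ = ⟨k - d, by omega⟩ := by
        ext; simp; omega
      have e2 : (⟨k - (d + 1) - 1 + 1, by omega⟩ : Fin (k + 1)) = ⟨k - d - 1, by omega⟩ := by
        ext; simp; omega
      rw [e1, e2, h2, sub_zero] at h1
      exact h1
  have h0 := hv2 0 (Fin.last k)
  simp only [step] at h0
  have hk1 := key (k - 1) (by omega)
  have e1 : (⟨k - (k - 1), by omega⟩ : Fin (k + 2)) = Fin.succ 0 := by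
    ext; simp; omega
  have e2 : (⟨k - (k - 1) - 1, by omega⟩ : Fin (k + 1)) = 0 := by
    ext; simp; omega
  rw [e1, e2] at hk1
  rw [hk1] at h0
  simp at h0

/-! ### Counting -/

/-- The words whose control letters at `p, …, p + k` are `0, …, k`. -/
def block (k M l p : ℕ) (i : Fin l) : Finset (Cell k M) :=
  if p ≤ (i : ℕ) ∧ (i : ℕ) < p + k + 1 then
    Finset.univ.filter (fun s => (s.1 : ℕ) = i - p)
  else Finset.univ

theorem card_block (hM : k < M) (l p : ℕ) (i : Fin l) :
    (block k M l p i).card * (if p ≤ (i : ℕ) ∧ (i : ℕ) < p + k + 1 then M else 1) =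
      Fintype.card (Cell k M) := by
  unfold block
  split_ifs with h
  · have h1 : Finset.univ.filter (fun s : Cell k M => (s.1 : ℕ) = i - p) =
        ({⟨i - p, by omega⟩} : Finset (Fin M)) ×ˢ (Finset.univ : Finset (Vec k)) := by
      ext s
      simp only [Finset.mem_filter, Finset.mem_univ, true_and, Finset.mem_product,
        Finset.mem_singleton, and_true, Fin.ext_iff]
    rw [h1, Finset.card_product, Finset.card_singleton, one_mul, Fintype.card_prod,
      Fintype.card_fin, Finset.card_univ, mul_comm]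
  · rw [mul_one, Finset.card_univ]

theorem card_pi (hM : k < M) (l p : ℕ) (hp : p + k + 1 ≤ l) :
    (Fintype.piFinset (block k M l p)).card * M ^ (k + 1) = Fintype.card (Cell k M) ^ l := by
  classical
  have h1 : ∏ i : Fin l, (if p ≤ (i : ℕ) ∧ (i : ℕ) < p + k + 1 then M else 1) = M ^ (k + 1) := by
    rw [Finset.prod_ite, Finset.prod_const, Finset.prod_const_one, mul_one]
    congr 1
    have h2 : (Finset.univ.filter (fun i : Fin l => p ≤ (i : ℕ) ∧ (i : ℕ) < p + k + 1)).map
        Fin.valEmbedding = Finset.Ico p (p + k + 1) := by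
      ext a
      simp only [Finset.mem_map, Finset.mem_filter, Finset.mem_univ, true_and,
        Fin.valEmbedding_apply, Finset.mem_Ico]
      constructor
      · rintro ⟨i, h, rfl⟩; exact h
      · intro h; exact ⟨⟨a, by omega⟩, h, rfl⟩
    have h3 := congrArg Finset.card h2
    rw [Finset.card_map, Nat.card_Ico] at h3
    omega
  rw [← h1, Fintype.card_piFinset, ← Finset.prod_mul_distrib,
    Finset.prod_congr rfl (fun i _ => card_block hM l p i), Finset.prod_const, Finset.card_univ,
    Fintype.card_fin]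

theorem card_orphans (hk : 0 < k) (hM : k < M) (l : ℕ) :
    Nat.card {u : Fin l → Cell k M // Orphan rule u} * M ^ (k + 1) ≤
      l * Fintype.card (Cell k M) ^ l := by
  classical
  rw [Nat.card_eq_fintype_card, Fintype.card_subtype]
  have hsub : Finset.univ.filter (fun u : Fin l → Cell k M => Orphan rule u) ⊆
      ((Finset.range l).filter (fun p => p + k + 1 ≤ l)).biUnion
        (fun p => Fintype.piFinset (block k M l p)) := by
    intro u hu
    rw [Finset.mem_filter] at hu
    have hu := hu.2
    by_contra hcon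
    refine not_orphan hk (by omega) u ?_ hu
    intro p hp
    by_contra h
    push Not at h
    apply hcon
    rw [Finset.mem_biUnion]
    refine ⟨p, by rw [Finset.mem_filter, Finset.mem_range]; omega, ?_⟩
    rw [Fintype.mem_piFinset]
    intro i
    unfold block
    split_ifs with hi
    · rw [Finset.mem_filter]
      refine ⟨Finset.mem_univ _, ?_⟩
      obtain ⟨hj, he⟩ := h (i - p) (by omega)
      have e : (⟨p + (i - p), hj⟩ : Fin l) = i := by ext; simp; omega
      rwa [e] at he
    · exact Finset.mem_univ _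
  calc _ ≤ (((Finset.range l).filter (fun p => p + k + 1 ≤ l)).biUnion
        (fun p => Fintype.piFinset (block k M l p))).card * M ^ (k + 1) :=
        Nat.mul_le_mul_right _ (Finset.card_le_card hsub)
    _ ≤ (∑ p ∈ (Finset.range l).filter (fun p => p + k + 1 ≤ l),
        (Fintype.piFinset (block k M l p)).card) * M ^ (k + 1) :=
        Nat.mul_le_mul_right _ Finset.card_biUnion_le
    _ = ∑ p ∈ (Finset.range l).filter (fun p => p + k + 1 ≤ l),
        Fintype.card (Cell k M) ^ l := by
        rw [Finset.sum_mul]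
        exact Finset.sum_congr rfl fun p hp => card_pi hM l p (Finset.mem_filter.mp hp).2
    _ ≤ l * Fintype.card (Cell k M) ^ l := by
        rw [Finset.sum_const, smul_eq_mul]
        refine Nat.mul_le_mul_right _ ?_
        calc _ ≤ (Finset.range l).card := Finset.card_le_card (Finset.filter_subset _ _)
          _ = l := Finset.card_range l

/-- The automaton with `4 ^ J` states. -/
theorem family (J : ℕ) (hJ : 2 ≤ J) : ∃ (S : Type) (_ : Fintype S) (_ : Nonempty S)
    (f : S → S → S), Fintype.card S = 4 ^ J ∧ (∃ (l : ℕ) (u : Fin l → S), Orphan f u) ∧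
      shortest f = J ∧ ∀ l : ℕ, 2 * l ≤ 2 ^ J ^ 2 → rho f l ≤ 1 / 2 := by
  obtain ⟨k, rfl⟩ : ∃ k, J = k + 1 := ⟨J - 1, by omega⟩
  have hk : 0 < k := by omega
  have hM : k < 2 ^ (k + 1) := by
    have := Nat.lt_two_pow_self (n := k + 1)
    omega
  have hM0 : 0 < 2 ^ (k + 1) := by positivity
  have hne : Nonempty (Cell k (2 ^ (k + 1))) := ⟨(⟨0, hM0⟩, 0)⟩
  obtain ⟨u, hu⟩ := exists_orphan hk hM
  refine ⟨Cell k (2 ^ (k + 1)), inferInstance, hne, rule, ?_, ⟨_, u, hu⟩, ?_, fun l hl => ?_⟩
  · rw [Fintype.card_prod, Fintype.card_fin]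
    simp only [Vec, Fintype.card_pi, ZMod.card, Finset.prod_const, Finset.card_univ,
      Fintype.card_fin]
    rw [← mul_pow]
    norm_num
  · apply le_antisymm
    · exact Nat.sInf_le ⟨u, hu⟩
    · refine le_csInf ⟨_, u, hu⟩ ?_
      rintro l ⟨u', hu'⟩
      by_contra hlt
      push Not at hlt
      exact not_orphan hk hM0 u' (fun p hp => absurd hp (by omega)) hu'
  · have h1 := card_orphans hk hM l
    set N := Nat.card {u : Fin l → Cell k (2 ^ (k + 1)) // Orphan rule u} with hN
    have hn0 : 0 < Fintype.card (Cell k (2 ^ (k + 1))) := Fintype.card_pos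
    have h2 : 2 * N ≤ Fintype.card (Cell k (2 ^ (k + 1))) ^ l := by
      have h3 : (2 ^ (k + 1)) ^ (k + 1) = 2 ^ (k + 1) ^ 2 := by rw [← pow_mul, sq]
      rw [h3] at h1
      have h4 : 2 * N * 2 ^ (k + 1) ^ 2 ≤
          Fintype.card (Cell k (2 ^ (k + 1))) ^ l * 2 ^ (k + 1) ^ 2 := by
        calc 2 * N * 2 ^ (k + 1) ^ 2 = 2 * (N * 2 ^ (k + 1) ^ 2) := by ring
          _ ≤ 2 * (l * Fintype.card (Cell k (2 ^ (k + 1))) ^ l) := Nat.mul_le_mul_left _ h1
          _ = (2 * l) * Fintype.card (Cell k (2 ^ (k + 1))) ^ l := by ring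
          _ ≤ 2 ^ (k + 1) ^ 2 * Fintype.card (Cell k (2 ^ (k + 1))) ^ l :=
            Nat.mul_le_mul_right _ hl
          _ = _ := by ring
      exact Nat.le_of_mul_le_mul_right h4 (by positivity)
    unfold rho
    rw [← hN, div_le_iff₀ (by positivity)]
    have h5 : (2 : ℝ) * N ≤ (Fintype.card (Cell k (2 ^ (k + 1))) : ℝ) ^ l := by exact_mod_cast h2
    linarith

/-- A bound for the values of a polynomial in two variables. -/
theorem eval_bound (P : MvPolynomial (Fin 2) ℝ) : ∃ (c d : ℕ), ∀ x y : ℕ, 1 ≤ x → y ≤ x →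
    MvPolynomial.eval ![(x : ℝ), (y : ℝ)] P ≤ 2 ^ c * (x : ℝ) ^ d := by
  obtain ⟨c, hc⟩ := pow_unbounded_of_one_lt (∑ m ∈ P.support, |P.coeff m|) (one_lt_two (α := ℝ))
  refine ⟨c, P.totalDegree, fun x y hx hy => ?_⟩
  have hx' : (1 : ℝ) ≤ x := by exact_mod_cast hx
  have hy' : (y : ℝ) ≤ x := by exact_mod_cast hy
  rw [MvPolynomial.eval_eq']
  calc ∑ m ∈ P.support, P.coeff m * ∏ i, ![(x : ℝ), (y : ℝ)] i ^ m i
      ≤ ∑ m ∈ P.support, |P.coeff m| * (x : ℝ) ^ P.totalDegree := by
        refine Finset.sum_le_sum fun m hm => ?_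
        have h0 : 0 ≤ ∏ i, ![(x : ℝ), (y : ℝ)] i ^ m i := by
          rw [Fin.prod_univ_two]
          simp only [Matrix.cons_val_zero, Matrix.cons_val_one]
          positivity
        have h1 : ∏ i, ![(x : ℝ), (y : ℝ)] i ^ m i ≤ (x : ℝ) ^ P.totalDegree := by
          rw [Fin.prod_univ_two]
          simp only [Matrix.cons_val_zero, Matrix.cons_val_one]
          calc (x : ℝ) ^ m 0 * (y : ℝ) ^ m 1 ≤ (x : ℝ) ^ m 0 * (x : ℝ) ^ m 1 := by gcongr
            _ = (x : ℝ) ^ (m 0 + m 1) := (pow_add _ _ _).symm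
            _ ≤ (x : ℝ) ^ P.totalDegree := by
              refine pow_le_pow_right₀ hx' ?_
              have := MvPolynomial.le_totalDegree hm
              rwa [Finsupp.sum_fintype _ _ (fun _ => rfl), Fin.sum_univ_two] at this
        calc P.coeff m * ∏ i, ![(x : ℝ), (y : ℝ)] i ^ m i
            ≤ |P.coeff m| * ∏ i, ![(x : ℝ), (y : ℝ)] i ^ m i :=
              mul_le_mul_of_nonneg_right (le_abs_self _) h0
          _ ≤ _ := mul_le_mul_of_nonneg_left h1 (abs_nonneg _)
    _ = (∑ m ∈ P.support, |P.coeff m|) * (x : ℝ) ^ P.totalDegree := by rw [Finset.sum_mul]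
    _ ≤ _ := mul_le_mul_of_nonneg_right hc.le (by positivity)

/-- **MP_642fbc_lc, Q1 (no).**  There is no polynomial `P` such that for every non-surjective range-2
cellular automaton with `n ≥ 1` states and shortest orphan length `m` more than half of the words of
some length `l ≤ P(n, m)` are orphans.  In fact for every `J ≥ 2` there is an automaton with `4 ^ J`
states and shortest orphan length `J` for which at most half of the words of length `l` are orphans
for all `l ≤ 2 ^ (J ^ 2) / 2`. -/
theorem result :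
    (¬ ∃ P : MvPolynomial (Fin 2) ℝ, ∀ (S : Type) (_ : Fintype S) (_ : Nonempty S) (f : S → S → S),
      (∃ (l : ℕ) (u : Fin l → S), Orphan f u) →
        ∃ l : ℕ, (l : ℝ) ≤ MvPolynomial.eval ![(Fintype.card S : ℝ), (shortest f : ℝ)] P ∧
          1 / 2 < rho f l) ∧
    ∀ J : ℕ, 2 ≤ J → ∃ (S : Type) (_ : Fintype S) (_ : Nonempty S) (f : S → S → S),
      Fintype.card S = 4 ^ J ∧ (∃ (l : ℕ) (u : Fin l → S), Orphan f u) ∧
        shortest f = J ∧ ∀ l : ℕ, 2 * l ≤ 2 ^ J ^ 2 → rho f l ≤ 1 / 2 := by
  refine ⟨?_, family⟩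
  rintro ⟨P, hP⟩
  obtain ⟨c, d, hcd⟩ := eval_bound P
  obtain ⟨S, hS, hne, f, hcard, hex, hm, hrho⟩ := family (2 * d + c + 2) (by omega)
  obtain ⟨l, hl, hl2⟩ := hP S hS hne f hex
  rw [hcard, hm] at hl
  set J := 2 * d + c + 2 with hJ
  have h4 : J ≤ 4 ^ J := (Nat.lt_pow_self (by norm_num)).le
  have h1 := hcd (4 ^ J) J (Nat.one_le_pow _ _ (by norm_num)) h4
  have h2 : (l : ℝ) ≤ 2 ^ c * ((4 ^ J : ℕ) : ℝ) ^ d := hl.trans h1
  have h3 : l ≤ 2 ^ c * (4 ^ J) ^ d := by exact_mod_cast h2
  have h5 : 2 * l ≤ 2 ^ J ^ 2 := by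
    calc 2 * l ≤ 2 * (2 ^ c * (4 ^ J) ^ d) := Nat.mul_le_mul_left _ h3
      _ = 2 ^ (1 + c + 2 * (J * d)) := by
        rw [show (4 : ℕ) = 2 ^ 2 by norm_num, ← pow_mul, ← pow_mul, pow_add, pow_add, pow_one]
        ring
      _ ≤ 2 ^ J ^ 2 := by
        refine Nat.pow_le_pow_right (by norm_num) ?_
        have : J ^ 2 = 2 * (J * d) + c * J + 2 * J := by rw [hJ]; ring
        have h6 : c ≤ c * J := Nat.le_mul_of_pos_right c (by omega)
        omega
  exact absurd hl2 (not_lt.mpr (hrho l h5))

end Pool.Agent.Results.MP_642fbc_lc.RareOrphans
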